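import Pool.Agent.V1187.Cx3

set_option autoImplicit false

open Pool.Agent.V1187.Cx

/-- **Dimension of the poset of convex subcomplexes of a finite Coxeter complex.**
For every Coxeter system `(W, S)` with `W` finite and `S` finite and nonempty (reducible case
included), the poset `Y(Σ)` of non-empty convex subcomplexes of the Coxeter complex `Σ` has
dimension `dim Σ + N(Σ)`, where `dim Σ = |S| - 1` and `N(Σ)` is the number of reflections. -/
theorem Pool.Agent.Results.MP_70010f_co.DimConvex.result {B : Type*} [Finite B] [Nonempty B]
    {M : CoxeterMatrix B} {W : Type*} [Group W] [Finite W] (cs : CoxeterSystem M W) :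
    Order.krullDim (Y cs) =
      (((Nat.card B - 1) + Nat.card {t : W // cs.IsReflection t} : ℕ) : WithBot ℕ∞) := by
  classical
  have := Fintype.ofFinite B
  have := Fintype.ofFinite W
  rw [Nat.card_eq_fintype_card]
  exact le_antisymm upper lower
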